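import Pool.Agent.H6.LD.Stm

/-!
Part AP3 of the crew LD (MP_d5a689_co).
-/

set_option autoImplicit false
open Filter Topology MeasureTheory
open Pool.Agent.H6.LD

namespace Pool.Agent.H85.LD

theorem t_AP3 : S_AP3 := by
  intro M f hf
  obtain ⟨C, hC⟩ := hf.bdd
  have hint : ∀ T : ℝ, IntervalIntegrable f volume 0 T := by
    intro T
    rw [intervalIntegrable_iff]
    exact Measure.integrableOn_of_bounded (M := C) (show volume (Set.Ioc (min 0 T) (max 0 T)) ≠ ⊤ from measure_Ioc_lt_top.ne)
      hf.meas.aestronglyMeasurable (Filter.Eventually.of_forall fun t => hC t)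
  refine ⟨⟨measurable_const.sub hf.meas, ⟨1 + C, fun t => ?_⟩, fun ε hε => ?_⟩, fun a ha => ?_⟩
  · calc ‖1 - f t‖ ≤ ‖(1 : ℂ)‖ + ‖f t‖ := norm_sub_le _ _
      _ ≤ 1 + C := by rw [norm_one]; linarith [hC t]
  · obtain ⟨q, hq, T0, hT⟩ := hf.app ε hε
    refine ⟨expo 0 - q, (ES M).sub_mem (Submodule.subset_span ⟨0, M.zero_mem, rfl⟩) hq, T0,
      fun T h => ?_⟩
    refine le_trans (le_of_eq ?_) (hT T h)
    congr 1
    funext t
    have h1 : expo 0 t = 1 := by
      unfold expo
      simp
    rw [Pi.sub_apply, h1]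
    have : (1 : ℂ) - f t - (1 - q t) = -(f t - q t) := by ring
    rw [this, norm_neg]
  · unfold HasMean at ha ⊢
    have h1 := (tendsto_const_nhds (x := (1 : ℂ)) (f := (atTop : Filter ℝ))).sub ha
    refine h1.congr' ?_
    filter_upwards [eventually_gt_atTop 0] with T hT
    rw [intervalIntegral.integral_sub (by simp) (hint T)]
    rw [mul_sub]
    congr 1
    rw [intervalIntegral.integral_const]
    simp only [sub_zero, Complex.real_smul, mul_one]
    rw [← Complex.ofReal_mul, one_div, inv_mul_cancel₀ hT.ne', Complex.ofReal_one]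

end Pool.Agent.H85.LD
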