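import Pool.Agent.H6.LD.Stm

/-!
Part DIF of the crew LD (MP_d5a689_co).
-/

set_option autoImplicit false
open Filter Topology MeasureTheory
open Pool.Agent.H6.LD

namespace Pool.Agent.H85.LD

open scoped Classical in
lemma dif_bound (E F : ℕ → Prop) (K : ℕ) (h1 : ∀ k, K ≤ k → E k → F k)
    (h2 : ∀ k, K ≤ k → F k → ¬ Exc k → E k) (x : ℕ) :
    |LS E x - LS F x| ≤ K + LS Exc x := by
  unfold LS
  simp only [Finset.sum_filter]
  rw [← Finset.sum_sub_distrib]
  refine (Finset.abs_sum_le_sum_abs _ _).trans ?_
  have hK : (∑ k ∈ Finset.Icc 1 x, if k < K then (1 : ℝ) else 0) ≤ K := by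
    rw [← Finset.sum_filter, Finset.sum_const, nsmul_eq_mul, mul_one]
    have : ((Finset.Icc 1 x).filter fun k => k < K).card ≤ (Finset.range K).card := by
      refine Finset.card_le_card fun k hk => ?_
      exact Finset.mem_range.2 (Finset.mem_filter.1 hk).2
    rw [Finset.card_range] at this
    exact_mod_cast this
  refine le_trans ?_ (add_le_add_left hK _)
  rw [← Finset.sum_add_distrib]
  refine Finset.sum_le_sum fun k hk => ?_
  have hk1 : (1 : ℝ) ≤ k := by exact_mod_cast (Finset.mem_Icc.1 hk).1
  have hk0 : (0 : ℝ) ≤ 1 / (k : ℝ) := by positivity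
  have hk2 : 1 / (k : ℝ) ≤ 1 := by
    rw [div_le_one (by linarith)]
    exact hk1
  by_cases hkK : k < K
  · rw [if_pos hkK]
    have h3 : |(if E k then 1 / (k : ℝ) else 0) - (if F k then 1 / (k : ℝ) else 0)| ≤ 1 := by
      rw [abs_le]
      constructor <;> split_ifs <;> linarith
    have h4 : (0 : ℝ) ≤ if Exc k then 1 / (k : ℝ) else 0 := by
      split_ifs
      · exact hk0
      · exact le_rfl
    linarith
  · have hkK' : K ≤ k := not_lt.1 hkK
    rw [if_neg hkK]
    by_cases hE : E k
    · have hF := h1 k hkK' hE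
      rw [if_pos hE, if_pos hF, sub_self, abs_zero]
      split_ifs
      · linarith
      · linarith
    · rw [if_neg hE]
      by_cases hF : F k
      · have hX : Exc k := by
          by_contra hX
          exact hE (h2 k hkK' hF hX)
        rw [if_pos hF, if_pos hX, zero_sub, abs_neg, abs_of_nonneg hk0]
        linarith
      · rw [if_neg hF, sub_self, abs_zero]
        split_ifs
        · linarith
        · linarith

theorem t_DIF : S_DIF := by
  intro hX E F K h1 h2 d hF
  unfold HasLD at hF ⊢
  have hz : Tendsto (fun x : ℕ => (1 / Real.log x) * (LS E x - LS F x)) atTop (𝓝 0) := by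
    rw [Metric.tendsto_atTop]
    intro ε hε
    obtain ⟨x0, hx0⟩ := hX (ε / 4) (by positivity)
    have hlog : Tendsto (fun x : ℕ => Real.log (x : ℝ)) atTop atTop :=
      Real.tendsto_log_atTop.comp tendsto_natCast_atTop_atTop
    obtain ⟨x1, hx1⟩ := (hlog.eventually_ge_atTop (max 1 (4 * K / ε))).exists_forall_of_atTop
    refine ⟨max x0 x1, fun x hx => ?_⟩
    have hl := hx1 x (le_of_max_le_right hx)
    have hl1 : 1 ≤ Real.log (x : ℝ) := le_trans (le_max_left _ _) hl
    have hl2 : 4 * K / ε ≤ Real.log (x : ℝ) := le_trans (le_max_right _ _) hl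
    have hl0 : 0 < Real.log (x : ℝ) := by linarith
    have hb := dif_bound E F K h1 h2 x
    have hx' := hx0 x (le_of_max_le_left hx)
    rw [Real.dist_eq, sub_zero, abs_mul, abs_of_pos (by positivity), one_div, inv_mul_lt_iff₀ hl0]
    rw [div_le_iff₀ hε] at hl2
    have : 0 < ε * Real.log (x : ℝ) := by positivity
    nlinarith
  have h3 := hz.add hF
  rw [zero_add] at h3
  refine h3.congr fun x => ?_
  ring

end Pool.Agent.H85.LD
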